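import Mathlib

set_option autoImplicit false

/-!
# Injectivity sets of colourings `d : λ⁺ × λ⁺ → λ` from Chang's transfer property
-/

namespace Pool.Agent.Results.MP_5f3b23_lc.ChangTransfer

open Cardinal Set

/-- `λ⁺` as a well-ordered set. -/
abbrev K (lam : Cardinal.{0}) : Type := (Order.succ lam).ord.ToType

/-- `λ` as a well-ordered set. -/
abbrev V (lam : Cardinal.{0}) : Type := lam.ord.ToType

/-- `B` is a cofinal subset of `α` (identified with the set of smaller elements). -/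
def Cof {lam : Cardinal.{0}} (B : Set (K lam)) (α : K lam) : Prop :=
  B ⊆ Iio α ∧ ∀ γ < α, ∃ β ∈ B, γ < β

/-- The set `A(d)`. -/
def A {lam : Cardinal.{0}} (d : K lam → K lam → V lam) : Set (K lam) :=
  {α | ∀ B : Set (K lam), Cof B α → ∃ η < α, ∃ B' ⊆ B, Cof B' α ∧ InjOn (d η) B'}

/-- Chang's transfer property `(λ⁺, λ) ↠ (τ⁺, τ)`: for every function `F` from finite sequences
of elements of `λ⁺` to `λ⁺` some subset `X` of `λ⁺` is closed under `F`, has cardinality `τ⁺`, and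
`X ∩ λ` has cardinality `τ`. -/
def Chang (lam τ : Cardinal.{0}) : Prop :=
  ∀ F : List (K lam) → K lam, ∃ X : Set (K lam), (∀ l : List (K lam), (∀ x ∈ l, x ∈ X) → F l ∈ X) ∧
    #X = Order.succ τ ∧ #{x | x ∈ X ∧ #(Iio x) < lam} = τ

section

variable {lam τ : Cardinal.{0}}

theorem mk_K : #(K lam) = Order.succ lam := mk_ord_toType _

theorem mk_V : #(V lam) = lam := mk_ord_toType _

theorem mk_Iio_ord {c : Cardinal.{0}} (i : c.ord.ToType) : #(Iio i) < c := by
  simpa using mk_Iio_lt i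

theorem mk_Iio_le (x : K lam) : #(Iio x) ≤ lam := Order.lt_succ_iff.1 (mk_Iio_ord x)

theorem exists_emb (lam : Cardinal.{0}) : ∃ g : V lam → K lam, Function.Injective g ∧ ∀ v, #(Iio (g v)) < lam := by
  have h : lam.ord ≤ (Order.succ lam).ord := ord_le_ord.2 (Order.le_succ lam)
  rw [← Ordinal.type_toType lam.ord, ← Ordinal.type_toType (Order.succ lam).ord,
    Ordinal.type_le_iff] at h
  obtain ⟨f⟩ := h
  refine ⟨f, f.injective, fun v => ?_⟩
  rw [← InitialSeg.image_Iio]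
  exact mk_image_le.trans_lt (mk_Iio_ord v)

theorem exists_bound (hω : ℵ₀ ≤ lam) {X : Set (K lam)} (hX : #X ≤ lam) : ∃ b, ∀ x ∈ X, x < b := by
  have h1 : Order.cof (K lam) = Order.succ lam := by
    rw [Ordinal.cof_toType, (isRegular_succ hω).cof_ord]
  have h2 : ¬ IsCofinal X := by
    intro h
    have h3 := Order.cof_le h
    rw [h1] at h3
    exact absurd (h3.trans hX) (not_le.2 (Order.lt_succ lam))
  rw [IsCofinal] at h2
  push Not at h2
  exact h2

theorem exists_lub (hω : ℵ₀ ≤ lam) {X : Set (K lam)} (hX : #X ≤ lam)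
    (hmax : ∀ x ∈ X, ∃ y ∈ X, x < y) : ∃ α, Cof X α := by
  obtain ⟨b, hb⟩ := exists_bound hω hX
  let s : Set (K lam) := {b | ∀ x ∈ X, x < b}
  have hs : s.Nonempty := ⟨b, hb⟩
  refine ⟨wellFounded_lt.min s hs, fun x hx => wellFounded_lt.min_mem s hs x hx, fun γ hγ => ?_⟩
  have h1 : γ ∉ s := fun h => wellFounded_lt.not_lt_min s h hγ
  simp only [s, mem_ofPred_eq, not_forall, not_lt] at h1
  obtain ⟨x, hx, h2⟩ := h1
  obtain ⟨y, hy, h3⟩ := hmax x hx
  exact ⟨y, hy, h2.trans_lt h3⟩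

theorem small_fun (hω : ℵ₀ ≤ lam) (hs : ∀ ν < lam, (2 : Cardinal.{0}) ^ ν < lam) {s t : Set (V lam)}
    (h1 : #s < lam) (h2 : #t < lam) : #(s → Option t) < lam := by
  have h3 : #(Option t) < lam := by
    rw [mk_option]
    exact add_lt_of_lt hω h2 (one_lt_aleph0.trans_le hω)
  have h4 : #(s → Option t) = #(Option t) ^ #s := by simp
  rw [h4]
  refine (Cardinal.power_le_power_right (cantor _).le).trans_lt ?_
  rw [← Cardinal.power_mul]
  exact hs _ (mul_lt_of_lt hω h3 h1)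

end

/-- The combinatorial core. -/
theorem core {lam : Cardinal.{0}} (hω : ℵ₀ ≤ lam)
    (hs : ∀ ν < lam, (2 : Cardinal.{0}) ^ ν < lam) (M : Set (K lam)) (s : K lam → Set (V lam))
    (hsl : ∀ i, #(s i) < lam) (hsv : ∀ v, ∃ i ∈ M, v ∈ s i) (d : K lam → K lam → V lam)
    {C : Set (K lam)} (hClub : IsClub C) :
    ∃ F : List (K lam) → K lam, ∀ (X : Set (K lam)) (τ : Cardinal.{0}), ℵ₀ ≤ τ → τ < lam →
      (∀ l : List (K lam), l.length ≤ 4 → (∀ x ∈ l, x ∈ X) → F l ∈ X) → M ⊆ X → #M ≤ τ →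
      #{x | x ∈ X ∧ #(Iio x) < lam} = τ →
      (∀ x ∈ X, #↥(X ∩ Iio x) ≤ τ) ∧ (#X = Order.succ τ →
      ∃ α ∈ C, Order.cof (Iio α) = Order.succ τ ∧ α ∉ A d) := by
  classical
  have hno : NoMaxOrder (K lam) := noMaxOrder (hω.trans (Order.le_succ lam))
  -- the functions
  have hc : ∀ x : K lam, ∃ y ∈ C, x < y := by
    intro x
    obtain ⟨x', hx'⟩ := exists_gt x
    obtain ⟨y, hy, h⟩ := hClub.isCofinal x'
    exact ⟨y, hy, hx'.trans_le h⟩
  choose c hcC hcx using hc
  obtain ⟨g, hg, hgs⟩ := exists_emb lam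
  have he : ∀ β : K lam, ∃ f : K lam → V lam, InjOn f (Iio β) := by
    intro β
    have h1 : #(Iio β) ≤ #(V lam) := by
      rw [mk_V]
      exact mk_Iio_le β
    obtain ⟨f⟩ := (Cardinal.le_def _ _).1 h1
    have : Nonempty (V lam) := by
      rw [← mk_ne_zero_iff, mk_V]
      exact (aleph0_pos.trans_le hω).ne'
    refine ⟨fun x => if h : x < β then f ⟨x, h⟩ else Classical.arbitrary _, ?_⟩
    intro x hx y hy hxy
    have hx' : x < β := hx
    have hy' : y < β := hy
    simp only [hx', hy', dif_pos] at hxy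
    have := f.injective hxy
    exact congrArg Subtype.val this
  choose e he using he
  have hι : ∀ n m : K lam, Nonempty ((s n → Option (s m)) ↪ V lam) := by
    intro n m
    rw [← Cardinal.le_def, mk_V]
    exact (small_fun hω hs (hsl n) (hsl m)).le
  let ι : ∀ n m : K lam, (s n → Option (s m)) ↪ V lam := fun n m => (hι n m).some
  let G : K lam → K lam → ∀ n m : K lam, s n → Option (s m) := fun β0 β n m v =>
    if h : ∃ w : s m, ∃ η < β0, e β0 η = v.1 ∧ d η β = w.1 then some h.choose else none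
  have hG : ∀ β0 β n m η (h1 : e β0 η ∈ s n) (h2 : d η β ∈ s m), η < β0 →
      G β0 β n m ⟨e β0 η, h1⟩ = some ⟨d η β, h2⟩ := by
    intro β0 β n m η h1 h2 h3
    have h : ∃ w : s m, ∃ η' < β0, e β0 η' = (⟨e β0 η, h1⟩ : s n).1 ∧ d η' β = w.1 :=
      ⟨⟨d η β, h2⟩, η, h3, rfl, rfl⟩
    have h4 : G β0 β n m ⟨e β0 η, h1⟩ = some h.choose := dif_pos h
    rw [h4]
    obtain ⟨η', h5, h6, h7⟩ := h.choose_spec
    have h8 : η' = η := he β0 h5 h3 h6
    congr 1
    apply Subtype.ext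
    rw [← h7, h8]
  obtain ⟨x0⟩ : Nonempty (K lam) := by
    rw [← mk_ne_zero_iff, mk_K]
    exact ((aleph0_pos.trans_le hω).trans (Order.lt_succ lam)).ne'
  let F : List (K lam) → K lam := fun l =>
    match l with
    | [β] => c β
    | [β, γ] => g (e β γ)
    | [β0, β, n, m] => g (ι n m (G β0 β n m))
    | _ => x0
  refine ⟨F, fun X τ hτ hτl hXF hMX hMτ hXL => ?_⟩
  have hX1 : ∀ x ∈ X, c x ∈ X := fun x hx => hXF [x] (by simp) (by simpa using hx)
  have hX2 : ∀ x ∈ X, ∀ y ∈ X, g (e x y) ∈ X := fun x hx y hy => hXF [x, y] (by simp) (by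
    intro z hz
    simp only [List.mem_cons, List.not_mem_nil, or_false] at hz
    rcases hz with rfl | rfl
    · exact hx
    · exact hy)
  have hX3 : ∀ x ∈ X, ∀ y ∈ X, ∀ n ∈ X, ∀ m ∈ X, g (ι n m (G x y n m)) ∈ X := by
    intro x hx y hy n hn m hm
    refine hXF [x, y, n, m] (by simp) ?_
    intro z hz
    simp only [List.mem_cons, List.not_mem_nil, or_false] at hz
    rcases hz with rfl | rfl | rfl | rfl
    · exact hx
    · exact hy
    · exact hn
    · exact hm
  -- initial segments of `X` have cardinality at most `τ`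
  have hseg : ∀ x ∈ X, #↥(X ∩ Iio x) ≤ τ := by
    intro x hx
    rw [← hXL]
    refine Cardinal.mk_le_of_injective
      (f := fun y : ↥(X ∩ Iio x) => ⟨g (e x y.1), hX2 x hx _ y.2.1, hgs _⟩) ?_
    intro y z hyz
    have h1 : g (e x y.1) = g (e x z.1) := congrArg Subtype.val hyz
    exact Subtype.ext (he x y.2.2 z.2.2 (hg h1))
  refine ⟨hseg, fun hX => ?_⟩
  have hXle : #X ≤ lam := hX.le.trans (Order.succ_le_of_lt hτl)
  obtain ⟨α, hα, hα2⟩ := exists_lub hω hXle (fun x hx => ⟨c x, hX1 x hx, hcx x⟩)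
  have hbig : ∀ B' : Set (K lam), Cof B' α → Order.succ τ ≤ #B' := by
    intro B' hB'
    by_contra hcon
    rw [not_le, Order.lt_succ_iff] at hcon
    have h1 : ∀ y : B', ∃ x ∈ X, y.1 < x := fun y => hα2 y.1 (hB'.1 y.2)
    choose x hxX hx using h1
    have h2 : X ⊆ ⋃ y : B', (X ∩ Iio (x y)) := by
      intro z hz
      obtain ⟨y, hy, h3⟩ := hB'.2 z (hα hz)
      exact mem_iUnion.2 ⟨⟨y, hy⟩, hz, h3.trans (hx ⟨y, hy⟩)⟩
    have h3 : #X ≤ τ := by
      refine (mk_le_mk_of_subset h2).trans ((mk_iUnion_le _).trans ?_)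
      calc #B' * ⨆ y : B', #↥(X ∩ Iio (x y)) ≤ τ * τ :=
            mul_le_mul' hcon (ciSup_le' fun y => hseg _ (hxX y))
        _ = τ := mul_eq_self hτ
    rw [hX] at h3
    exact absurd h3 (not_le.2 (Order.lt_succ τ))
  refine ⟨α, ?_, ?_, ?_⟩
  · -- `α ∈ C`
    have h1 : c '' X ⊆ C := by
      rintro _ ⟨x, _, rfl⟩
      exact hcC x
    have h2 : (c '' X).Nonempty := by
      have h3 : X.Nonempty := by
        rw [← nonempty_coe_sort, ← mk_ne_zero_iff, hX]
        exact (bot_le.trans_lt (Order.lt_succ τ)).ne'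
      exact h3.image c
    refine hClub.isLUB_mem h1 h2 ⟨?_, ?_⟩
    · rintro _ ⟨x, hx, rfl⟩
      exact (hα (hX1 x hx)).le
    · intro b hb
      by_contra hcon
      rw [not_le] at hcon
      obtain ⟨x, hx, h3⟩ := hα2 b hcon
      have h4 : c x ≤ b := hb ⟨x, hx, rfl⟩
      exact absurd (h3.trans (hcx x)) (not_lt.2 h4)
  · -- the cofinality
    apply le_antisymm
    · rw [← hX]
      have h1 : IsCofinal (α := Iio α) {y | y.1 ∈ X} := by
        intro y
        obtain ⟨x, hx, h⟩ := hα2 y.1 y.2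
        exact ⟨⟨x, hα hx⟩, hx, h.le⟩
      refine (Order.cof_le h1).trans ?_
      exact Cardinal.mk_le_of_injective (f := fun y : {y : Iio α | y.1 ∈ X} => (⟨y.1.1, y.2⟩ : X))
        (fun y z h => Subtype.ext (Subtype.ext (congrArg (fun w : X => w.1) h)))
    · rw [Order.le_cof_iff]
      intro S hS
      have h1 : Cof (Subtype.val '' S) α := by
        refine ⟨?_, fun γ hγ => ?_⟩
        · rintro _ ⟨y, _, rfl⟩
          exact y.2
        · obtain ⟨x, hx, h⟩ := hα2 γ hγ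
          obtain ⟨y, hy, h2⟩ := hS ⟨x, hα hx⟩
          exact ⟨y.1, ⟨y, hy, rfl⟩, h.trans_le h2⟩
      exact (hbig _ h1).trans mk_image_le
  · -- `α ∉ A d`
    intro hA
    obtain ⟨η, hη, B', hB'X, hB', hinj⟩ := hA X ⟨hα, hα2⟩
    obtain ⟨β0, hβ0, hηβ⟩ := hα2 η hη
    obtain ⟨n, hnM, hn⟩ := hsv (e β0 η)
    let XL : Set (K lam) := {x | x ∈ X ∧ #(Iio x) < lam}
    let Φ : M × XL → Option (V lam) := fun p =>
      if h : ∃ t : s n → Option (s p.1.1), g (ι n p.1.1 t) = p.2.1 then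
        (h.choose ⟨e β0 η, hn⟩).map Subtype.val else none
    have h1 : ∀ β ∈ X, ∃ p, Φ p = some (d η β) := by
      intro β hβ
      obtain ⟨m, hmM, hm⟩ := hsv (d η β)
      have hmem := hX3 β0 hβ0 β hβ n (hMX hnM) m (hMX hmM)
      refine ⟨(⟨m, hmM⟩, ⟨g (ι n m (G β0 β n m)), hmem, hgs _⟩), ?_⟩
      have h : ∃ t : s n → Option (s m), g (ι n m t) = g (ι n m (G β0 β n m)) := ⟨_, rfl⟩
      have h2 : h.choose = G β0 β n m := (ι n m).injective (hg h.choose_spec)
      have h3 : Φ (⟨m, hmM⟩, ⟨g (ι n m (G β0 β n m)), hmem, hgs _⟩) =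
          (h.choose ⟨e β0 η, hn⟩).map Subtype.val := dif_pos h
      rw [h3, h2, hG β0 β n m η hn hm hηβ]
      rfl
    have h2 : #(d η '' B') ≤ τ := by
      have h3 : #(d η '' B') ≤ #(M × XL) := by
        have h4 : ∀ v : d η '' B', ∃ p, Φ p = some v.1 := by
          rintro ⟨_, β, hβ, rfl⟩
          exact h1 β (hB'X hβ)
        choose p hp using h4
        refine Cardinal.mk_le_of_injective (f := p) ?_
        intro v w hvw
        have h5 : some v.1 = some w.1 := by rw [← hp v, ← hp w, hvw]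
        exact Subtype.ext (Option.some_injective _ h5)
      refine h3.trans ?_
      rw [mk_prod, lift_id, lift_id]
      have h6 : #XL = τ := hXL
      rw [h6]
      exact (mul_le_mul' hMτ le_rfl).trans (mul_eq_self hτ).le
    rw [mk_image_eq_of_injOn _ _ hinj] at h2
    exact absurd ((hbig B' hB').trans h2) (not_le.2 (Order.lt_succ τ))

/-- The case of Chang's transfer property at a strong limit cardinal of cofinality `ω`. -/
theorem of_chang {lam τ : Cardinal.{0}} (hω : ℵ₀ ≤ lam) (hcof : lam.ord.cof = ℵ₀)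
    (hs : ∀ ν < lam, (2 : Cardinal.{0}) ^ ν < lam) (hτ : ℵ₀ ≤ τ) (hτl : τ < lam)
    (hC : Chang lam τ) (d : K lam → K lam → V lam) :
    IsStationary {α : K lam | Order.cof (Iio α) = Order.succ τ ∧ α ∉ A d} := by
  classical
  intro C hClub
  obtain ⟨g, hg, hgs⟩ := exists_emb lam
  obtain ⟨S, hS, hS2⟩ := Order.exists_cof_eq (V lam)
  rw [Ordinal.cof_toType, hcof] at hS2
  obtain ⟨e⟩ : Nonempty (ℕ ≃ S) := by
    rw [← Cardinal.eq, hS2, mk_nat]
  let s : K lam → Set (V lam) := fun i => {v | ∃ w, g w = i ∧ v ≤ w}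
  have hsl : ∀ i, #(s i) < lam := by
    intro i
    by_cases hi : ∃ w, g w = i
    · obtain ⟨w, hw⟩ := hi
      have h1 : s i ⊆ Iic w := by
        rintro v ⟨w', h2, h3⟩
        rw [← hw] at h2
        rw [← hg h2]
        exact h3
      refine (mk_le_mk_of_subset h1).trans_lt ?_
      rw [← Iio_insert]
      exact mk_insert_le.trans_lt
        (add_lt_of_lt hω (mk_Iio_ord _) (one_lt_aleph0.trans_le hω))
    · have h1 : s i = ∅ := by
        ext v
        simp only [s, mem_ofPred_eq, mem_empty_iff_false, iff_false]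
        rintro ⟨w, hw, _⟩
        exact hi ⟨w, hw⟩
      rw [h1, mk_eq_zero]
      exact aleph0_pos.trans_le hω
  have hsv : ∀ v, ∃ i ∈ Set.range fun n => g (e n).1, v ∈ s i := by
    intro v
    obtain ⟨w, hw, h⟩ := hS v
    exact ⟨g w, ⟨e.symm ⟨w, hw⟩, by simp⟩, w, rfl, h⟩
  obtain ⟨F, hF⟩ := core hω hs (Set.range fun n => g (e n).1) s hsl hsv d hClub
  obtain ⟨X, hX1, hX2, hX3⟩ := hC fun l => if l.length ≤ 4 then F l else g (e (l.length - 5)).1
  have hX0 : X.Nonempty := by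
    rw [← nonempty_coe_sort, ← mk_ne_zero_iff, hX2]
    exact (bot_le.trans_lt (Order.lt_succ τ)).ne'
  obtain ⟨x0, hx0⟩ := hX0
  have h1 : Set.range (fun n => g (e n).1) ⊆ X := by
    rintro _ ⟨n, rfl⟩
    have h2 := hX1 (List.replicate (n + 5) x0) (fun a ha => by
      rw [List.eq_of_mem_replicate ha]
      exact hx0)
    have h3 : ¬ n + 5 ≤ 4 := by omega
    simpa only [List.length_replicate, if_neg h3, Nat.add_sub_cancel] using h2
  have h2 : #(Set.range fun n => g (e n).1) ≤ τ := by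
    refine mk_range_le.trans ?_
    rw [mk_nat]
    exact hτ
  obtain ⟨_, h3⟩ := hF X τ hτ hτl (fun l hl h => by simpa only [if_pos hl] using hX1 l h) h1 h2 hX3
  obtain ⟨α, hα, h4⟩ := h3 hX2
  exact ⟨α, h4, hα⟩

/-- Let `λ` be a strong limit cardinal of cofinality `ω` (for instance `ℵ_ω` under GCH), let
`τ < λ` be infinite and assume Chang's transfer property `(λ⁺, λ) ↠ (τ⁺, τ)`. Then for every
`d : λ⁺ × λ⁺ → λ` the set of all `α < λ⁺` of cofinality `τ⁺` which do not belong to `A(d)` is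
stationary. -/
theorem result :
    ∀ lam τ : Cardinal.{0}, ℵ₀ ≤ lam → lam.ord.cof = ℵ₀ →
      (∀ ν < lam, (2 : Cardinal.{0}) ^ ν < lam) → ℵ₀ ≤ τ → τ < lam → Chang lam τ →
      ∀ d : K lam → K lam → V lam,
        IsStationary ({α : K lam | Order.cof (Iio α) = Order.succ τ} \ A d) := by
  intro lam τ h1 h2 h3 h4 h5 h6
  exact of_chang h1 h2 h3 h4 h5 h6

end Pool.Agent.Results.MP_5f3b23_lc.ChangTransfer
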